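import Mathlib
import Pool.Agent.V11311.ER.ZT

set_option autoImplicit false

/-!
Shrinking targets for typical trajectories.
-/

namespace Pool.Agent.Results.MP_0deaf3_nt.ShrinkingTargets

open Filter Topology Finset

/-- the `3x+1` function -/
def T (n : ℕ) : ℕ := if n % 2 = 0 then n / 2 else (3 * n + 1) / 2

/-- the proportion of the `n ≤ N` with the property `P N n` tends to `1` -/
def AlmostAll (P : ℕ → ℕ → Prop) : Prop :=
  Tendsto (fun N : ℕ => ({n : ℕ | 1 ≤ n ∧ n ≤ N ∧ P N n}.ncard : ℝ) / N) atTop (𝓝 1)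

/-- the trajectory of `n` has, before its first term `≤ N ^ κ`, a term in one of the residue classes `S` modulo `2 ^ k` -/
def Meets (κ : ℝ) (N k : ℕ) (S : Finset ℕ) (n : ℕ) : Prop :=
  ∃ s, (∀ s', s' ≤ s → (N : ℝ) ^ κ < T^[s'] n) ∧ T^[s] n % 2 ^ k ∈ S

open Pool.Agent.V11311.RC Pool.Agent.V11311.FP Pool.Agent.V11311.ER

theorem T_eq : T = Pool.Agent.Helper894.Collatz.T := rfl

theorem lv_lt (κ : ℝ) (N z : ℕ) : Lv κ N < z ↔ (N : ℝ) ^ κ < z := by
  unfold Lv
  exact Nat.floor_lt (by positivity)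

theorem meets_iff (κ : ℝ) (N k : ℕ) (S : Finset ℕ) (n : ℕ) : Meets κ N k S n ↔
    ∃ s, (∀ s', s' ≤ s → Lv κ N < (Pool.Agent.Helper894.Collatz.T)^[s'] n) ∧
      (Pool.Agent.Helper894.Collatz.T)^[s] n % 2 ^ k ∈ S := by
  unfold Meets
  rw [T_eq]
  simp only [lv_lt]

theorem almost {P : ℕ → ℕ → Prop} (h : ∀ ε : ℝ, 0 < ε → ∀ᶠ N : ℕ in atTop,
    (cN (fun n => ¬ P N n) N : ℝ) ≤ ε * N) : AlmostAll P := by
  classical
  have key : ∀ N : ℕ, ({n : ℕ | 1 ≤ n ∧ n ≤ N ∧ P N n}.ncard : ℝ) = N - cN (fun n => ¬ P N n) N := by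
    intro N
    have h1 : {n : ℕ | 1 ≤ n ∧ n ≤ N ∧ P N n}.ncard = cN (fun n => P N n) N := by
      unfold cN
      rw [← Set.ncard_coe_finset]
      congr 1
      ext n
      rw [Finset.mem_coe, Finset.mem_filter, Finset.mem_Icc]
      constructor
      · rintro ⟨h1, h2, h3⟩; exact ⟨⟨h1, h2⟩, h3⟩
      · rintro ⟨⟨h1, h2⟩, h3⟩; exact ⟨h1, h2, h3⟩
    rw [h1]
    have h2 := cN_add_not (fun n => P N n) N
    have h3 : (cN (fun n => P N n) N : ℝ) + cN (fun n => ¬ P N n) N = N := by exact_mod_cast h2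
    linarith
  unfold AlmostAll
  simp only [key]
  rw [Metric.tendsto_atTop]
  intro ε hε
  obtain ⟨N0, hN0⟩ := eventually_atTop.1 ((h (ε / 2) (by positivity)).and (eventually_gt_atTop 0))
  refine ⟨N0, fun N hN => ?_⟩
  obtain ⟨h1, h2⟩ := hN0 N hN
  have hNR : (0 : ℝ) < N := by exact_mod_cast h2
  have h3 : (0 : ℝ) ≤ cN (fun n => ¬ P N n) N := Nat.cast_nonneg _
  rw [Real.dist_eq]
  have e1 : ((N : ℝ) - cN (fun n => ¬ P N n) N) / N - 1 = -((cN (fun n => ¬ P N n) N : ℝ) / N) := by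
    field_simp
    ring
  rw [e1, abs_neg, abs_of_nonneg (by positivity), div_lt_iff₀ hNR]
  nlinarith

/-- **shrinking targets**: almost all trajectories avoid targets of density `o(1 / log N)`, and they hit targets of
density much larger than `K / log N` -/
theorem result (K : ℕ → ℕ) (S : ℕ → Finset ℕ) (hK1 : ∀ N, 1 ≤ K N) (hS : ∀ N, ∀ r ∈ S N, r < 2 ^ K N)
    (hK : Tendsto (fun N : ℕ => (K N : ℝ) / Real.log N) atTop (𝓝 0)) :
    (Tendsto (fun N : ℕ => Real.log N * ((S N).card / 2 ^ K N)) atTop (𝓝 0) →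
      ∀ κ : ℝ, 0 < κ → AlmostAll (fun N n => ¬ Meets κ N (K N) (S N) n)) ∧
    (Tendsto (fun N : ℕ => Real.log N / K N * ((S N).card / 2 ^ K N)) atTop atTop →
      ∀ κ : ℝ, 0 < κ → κ < 1 → AlmostAll (fun N n => Meets κ N (K N) (S N) n)) := by
  classical
  refine ⟨fun hμ κ hκ => almost fun ε hε => ?_, fun hμ κ hκ hκ1 => almost fun ε hε => ?_⟩
  · filter_upwards [avoid hK hS hμ hκ ε hε] with N hN
    refine le_trans (Nat.cast_le.2 (cN_mono (fun n _ h1 => ?_) N)) hN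
    rw [not_not, meets_iff] at h1
    exact h1
  · filter_upwards [hits hK1 hS hK hμ hκ hκ1 (ε / 2) (by positivity), small_rare2 hκ1 (ε / 2) (by positivity)]
      with N h1 h2
    have h3 := cN_or3 (P := fun n => ¬ Meets κ N (K N) (S N) n)
      (A := fun n => (n : ℝ) < (N : ℝ) ^ ((1 + κ) / 2))
      (B := fun n => (N : ℝ) ^ ((1 + κ) / 2) ≤ n ∧
        ¬ ∃ s, (∀ s', s' ≤ s → Lv κ N < (Pool.Agent.Helper894.Collatz.T)^[s'] n) ∧
          (Pool.Agent.Helper894.Collatz.T)^[s] n % 2 ^ K N ∈ S N)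
      (C := fun _ => False) (N := N) (fun n _ _ h => by
        rw [meets_iff] at h
        rcases lt_or_ge (n : ℝ) ((N : ℝ) ^ ((1 + κ) / 2)) with h' | h'
        · exact Or.inl h'
        · exact Or.inr (Or.inl ⟨h', h⟩))
    have h4 : cN (fun _ => False) N = 0 := by
      unfold cN
      simp
    rw [h4] at h3
    push_cast at h3
    linarith

end Pool.Agent.Results.MP_0deaf3_nt.ShrinkingTargets
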