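import Pool.Agent.V11201.SH.P4

set_option autoImplicit false

/-! The exceptions to `t(n) ≤ n ^ (2 + ε)` come in solid blocks with one and the same maximum excursion. -/

namespace Pool.Agent.Results.MP_0deaf3_nt.SolidExceptions

open Filter Topology

/-- the `3x+1` function -/
def T (n : ℕ) : ℕ := if n % 2 = 0 then n / 2 else (3 * n + 1) / 2

/-- the maximum excursion including the starting value, in `ℕ ∪ {∞}`; see `result` (0) -/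
noncomputable def t (n : ℕ) : ℕ∞ := ⨆ k : ℕ, ((T^[k] n : ℕ) : ℕ∞)

/-- some iterate `T^k n`, `k ≥ 1`, is above `n ^ (2 + ε)` -/
def Exceptional (ε : ℝ) (n : ℕ) : Prop := ∃ k : ℕ, 1 ≤ k ∧ (n : ℝ) ^ (2 + ε) < ((T^[k] n : ℕ) : ℝ)

/-- the number of the `1 ≤ j ≤ H` with `t(n + j) = t(n)` -/
noncomputable def same (n H : ℕ) : ℕ := {j : ℕ | 1 ≤ j ∧ j ≤ H ∧ t (n + j) = t n}.ncard

/-- the number of the exceptions among `n + 1, ..., n + H` -/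
noncomputable def exceptions (ε : ℝ) (n H : ℕ) : ℕ := {j : ℕ | 1 ≤ j ∧ j ≤ H ∧ Exceptional ε (n + j)}.ncard

/-- the positive integers with the property `P` have the natural density `δ` -/
def HasDensity (P : ℕ → Prop) (δ : ℝ) : Prop :=
  Tendsto (fun N : ℕ => ({n : ℕ | 1 ≤ n ∧ n ≤ N ∧ P n}.ncard : ℝ) / N) atTop (𝓝 δ)

/-- `g n = n ^ o(1)`: `log (1 + g n) / log n` tends to `0` -/
def SubPower (g : ℕ → ℕ) : Prop := Tendsto (fun n : ℕ => Real.log (1 + g n) / Real.log n) atTop (𝓝 0)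

/-- The exception is solid on the scale `H`, up to `η H` integers: if `t(n) > n ^ (2 + ε)`, then `t(m) = t(n)` for
all but `η H` of the `m` in `(n, n + H]`; if not, at most `η H` of them are exceptions. -/
def SolidAt (ε η : ℝ) (n H : ℕ) : Prop :=
  (Exceptional ε n → (1 - η) * H ≤ same n H) ∧ (¬ Exceptional ε n → (exceptions ε n H : ℝ) ≤ η * H)

open Pool.Agent.V11201.SH Pool.Agent.V11201.SH.Exc in
theorem solid_of {ε : ℝ} (hε : 0 ≤ ε) {v η : ℝ} {n H : ℕ} (hn : 1 ≤ n) (hv : v ≤ (n : ℝ) ^ (2 + ε))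
    (h : (Exc.stray v n H : ℝ) ≤ η * H) : SolidAt ε η n H := by
  have hn1 : (1 : ℝ) ≤ n := by exact_mod_cast hn
  have hat : ∀ {w : ℝ} {m : ℕ}, AtMost w m → ∀ k : ℕ, ((T^[k] m : ℕ) : ℝ) ≤ w := fun h => h
  have hne : ∀ m : ℕ, 1 ≤ m → ¬ Exceptional ε m → AtMost ((m : ℝ) ^ (2 + ε)) m := by
    intro m hm hm2 k
    have hm1 : (1 : ℝ) ≤ m := by exact_mod_cast hm
    rcases Nat.eq_zero_or_pos k with h0 | h0
    · subst h0
      calc ((m : ℕ) : ℝ) = (m : ℝ) ^ (1 : ℝ) := (Real.rpow_one _).symm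
        _ ≤ (m : ℝ) ^ (2 + ε) := Real.rpow_le_rpow_of_exponent_le hm1 (by linarith)
    · by_contra hcon
      exact hm2 ⟨k, h0, not_le.1 hcon⟩
  have hst : Exc.stray v n H = {j : ℕ | 1 ≤ j ∧ j ≤ H ∧ ¬ Near v n (n + j)}.ncard := rfl
  refine ⟨fun hE => ?_, fun hE => ?_⟩
  · have hsub : ((Finset.Icc 1 H : Finset ℕ) : Set ℕ) ⊆
        {j : ℕ | 1 ≤ j ∧ j ≤ H ∧ t (n + j) = t n} ∪ {j : ℕ | 1 ≤ j ∧ j ≤ H ∧ ¬ Near v n (n + j)} := by
      intro j hj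
      rw [Finset.coe_Icc] at hj
      by_cases h1 : Near v n (n + j)
      · left
        rcases h1 with h1 | ⟨h1, _⟩
        · exact ⟨hj.1, hj.2, h1⟩
        · obtain ⟨k, _, hk⟩ := hE
          exact absurd ((hat h1 k).trans hv) (not_le.2 hk)
      · exact Or.inr ⟨hj.1, hj.2, h1⟩
    have h1 := (Set.ncard_le_ncard hsub ((fin_le _ H).union (fin_le _ H))).trans (Set.ncard_union_le _ _)
    rw [Set.ncard_coe_finset, Nat.card_Icc, Nat.add_sub_cancel, ← hst] at h1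
    have h2 : (H : ℝ) ≤ same n H + Exc.stray v n H := by exact_mod_cast h1
    linarith
  · have h1 : exceptions ε n H ≤ Exc.stray v n H := by
      rw [hst]
      unfold exceptions
      refine Set.ncard_le_ncard ?_ (fin_le _ H)
      rintro j ⟨h1, h2, h3⟩
      refine ⟨h1, h2, fun h4 => ?_⟩
      have hle : (n : ℝ) ^ (2 + ε) ≤ ((n + j : ℕ) : ℝ) ^ (2 + ε) :=
        Real.rpow_le_rpow (by positivity) (by exact_mod_cast Nat.le_add_right n j) (by linarith)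
      have h5 : AtMost ((n : ℝ) ^ (2 + ε)) (n + j) := by
        rcases h4 with h4 | ⟨_, h4⟩
        · exact (atMost_congr h4).2 (hne n hn hE)
        · exact fun k => (h4 k).trans hv
      obtain ⟨k, _, hk⟩ := h3
      exact absurd ((hat h5 k).trans hle) (not_le.2 hk)
    have h2 : (exceptions ε n H : ℝ) ≤ Exc.stray v n H := by exact_mod_cast h1
    linarith

/-- THE EXCEPTIONS TO `t(n) ≤ n ^ (2 + ε)`.
(0) For `n ≥ 1` and `ε ≥ 0` the integer `n` is an exception if and only if `t(n) > n ^ (2 + ε)`, in the sense that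
not all the iterates `T^k n`, `k ≥ 0`, are `≤ n ^ (2 + ε)`.
(1) For `ε ≥ 0` and `η > 0` there are `θ > 0` and `N₀` such that for `N ≥ N₀`, for all but `η N` of the `n ≤ N` and
ALL `1 ≤ H ≤ N ^ θ` the exceptions are solid at `n` on the scale `H` up to `η H`.
(2) If `g n = n ^ o(1)`, this holds for almost all `n` and all `1 ≤ H ≤ g n`. -/
theorem result :
    (∀ (ε : ℝ) (n : ℕ), 0 ≤ ε → 1 ≤ n →
      (Exceptional ε n ↔ ∃ k : ℕ, (n : ℝ) ^ (2 + ε) < ((T^[k] n : ℕ) : ℝ))) ∧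
    (∀ ε η : ℝ, 0 ≤ ε → 0 < η → ∃ θ : ℝ, 0 < θ ∧ ∃ N₀ : ℕ, ∀ N ≥ N₀,
      ({n : ℕ | 1 ≤ n ∧ n ≤ N ∧ ¬ ∀ H : ℕ, 1 ≤ H → (H : ℝ) ≤ (N : ℝ) ^ θ → SolidAt ε η n H}.ncard : ℝ) ≤ η * N) ∧
    (∀ g : ℕ → ℕ, SubPower g → ∀ ε η : ℝ, 0 ≤ ε → 0 < η →
      HasDensity (fun n => ∀ H : ℕ, 1 ≤ H → H ≤ g n → SolidAt ε η n H) 1) := by
  refine ⟨fun ε n hε hn => ⟨fun ⟨k, _, hk⟩ => ⟨k, hk⟩, ?_⟩, fun ε η hε hη => ?_, fun g hg ε η hε hη => ?_⟩
  · rintro ⟨k, hk⟩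
    rcases Nat.eq_zero_or_pos k with h0 | h0
    · exfalso
      subst h0
      have hn1 : (1 : ℝ) ≤ n := by exact_mod_cast hn
      have h1 : ((n : ℕ) : ℝ) ≤ (n : ℝ) ^ (2 + ε) := by
        calc ((n : ℕ) : ℝ) = (n : ℝ) ^ (1 : ℝ) := (Real.rpow_one _).symm
          _ ≤ (n : ℝ) ^ (2 + ε) := Real.rpow_le_rpow_of_exponent_le hn1 (by linarith)
      exact absurd h1 (not_le.2 hk)
    · exact ⟨k, h0, hk⟩
  · obtain ⟨θ, hθ, N0, h⟩ := Pool.Agent.V11201.SH.Exc.near_max (κ := 1 / 2) (by norm_num)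
      (ε := min η (η / 2)) (by positivity)
    obtain ⟨N1, hN1⟩ := exists_nat_gt ((2 / η) ^ 8)
    refine ⟨θ, hθ, max (max N0 N1) 1, fun N hN => ?_⟩
    have hNN0 : N0 ≤ N := ((le_max_left _ _).trans (le_max_left _ _)).trans hN
    have hNN1 : N1 ≤ N := ((le_max_right _ _).trans (le_max_left _ _)).trans hN
    have hN1' : 1 ≤ N := (le_max_right _ _).trans hN
    have hNr : (1 : ℝ) ≤ N := by exact_mod_cast hN1'
    have hNpos : (0 : ℝ) < N := by linarith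
    have h1 := h N hNN0
    -- `n ≥ N ^ (7/8)` suffices
    have hsub : {n : ℕ | 1 ≤ n ∧ n ≤ N ∧ ¬ ∀ H : ℕ, 1 ≤ H → (H : ℝ) ≤ (N : ℝ) ^ θ → SolidAt ε η n H} ⊆
        {n : ℕ | 1 ≤ n ∧ n ≤ N ∧ ∃ H : ℕ, 1 ≤ H ∧ (H : ℝ) ≤ (N : ℝ) ^ θ ∧
          min η (η / 2) * H < Pool.Agent.V11201.SH.Exc.stray ((N : ℝ) ^ (1 + 1 / 2 : ℝ)) n H} ∪
        ((Finset.Icc 1 ⌊(N : ℝ) ^ (7 / 8 : ℝ)⌋₊ : Finset ℕ) : Set ℕ) := by
      rintro n ⟨a1, a2, a3⟩
      by_cases h4 : (n : ℝ) ≤ (N : ℝ) ^ (7 / 8 : ℝ)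
      · right
        rw [Finset.coe_Icc]
        exact ⟨a1, Nat.le_floor h4⟩
      left
      push Not at a3 h4
      obtain ⟨H, b1, b2, b3⟩ := a3
      refine ⟨a1, a2, H, b1, b2, ?_⟩
      by_contra hcon
      apply b3
      refine solid_of hε (v := (N : ℝ) ^ (1 + 1 / 2 : ℝ)) a1 ?_ ((not_lt.1 hcon).trans
        (mul_le_mul_of_nonneg_right (min_le_left _ _) (Nat.cast_nonneg _)))
      calc (N : ℝ) ^ (1 + 1 / 2 : ℝ) ≤ (N : ℝ) ^ (7 / 8 * (2 + ε) : ℝ) :=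
            Real.rpow_le_rpow_of_exponent_le hNr (by linarith)
        _ = ((N : ℝ) ^ (7 / 8 : ℝ)) ^ (2 + ε) := Real.rpow_mul hNpos.le _ _
        _ ≤ (n : ℝ) ^ (2 + ε) := Real.rpow_le_rpow (by positivity) h4.le (by linarith)
    have h2 := (Set.ncard_le_ncard hsub ((Pool.Agent.V11201.SH.fin_le _ N).union (Finset.finite_toSet _))).trans
      (Set.ncard_union_le _ _)
    rw [Set.ncard_coe_finset, Nat.card_Icc, Nat.add_sub_cancel] at h2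
    have h3 : ({n : ℕ | 1 ≤ n ∧ n ≤ N ∧ ¬ ∀ H : ℕ, 1 ≤ H → (H : ℝ) ≤ (N : ℝ) ^ θ → SolidAt ε η n H}.ncard : ℝ) ≤
        ({n : ℕ | 1 ≤ n ∧ n ≤ N ∧ ∃ H : ℕ, 1 ≤ H ∧ (H : ℝ) ≤ (N : ℝ) ^ θ ∧
          min η (η / 2) * H < Pool.Agent.V11201.SH.Exc.stray ((N : ℝ) ^ (1 + 1 / 2 : ℝ)) n H}.ncard : ℝ) +
        (⌊(N : ℝ) ^ (7 / 8 : ℝ)⌋₊ : ℝ) := by exact_mod_cast h2
    have h4 : (⌊(N : ℝ) ^ (7 / 8 : ℝ)⌋₊ : ℝ) ≤ (N : ℝ) ^ (7 / 8 : ℝ) := Nat.floor_le (by positivity)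
    have h5 : (N : ℝ) ^ (7 / 8 : ℝ) ≤ η / 2 * N := by
      have h6 : (2 / η) ≤ (N : ℝ) ^ (1 / 8 : ℝ) := by
        have h7 : (2 / η) ^ 8 ≤ (N : ℝ) := hN1.le.trans (by exact_mod_cast hNN1)
        have h8 := Real.rpow_le_rpow (by positivity) h7 (show (0 : ℝ) ≤ 1 / 8 by norm_num)
        rw [← Real.rpow_natCast, ← Real.rpow_mul (by positivity)] at h8
        norm_num at h8
        norm_num
        exact h8
      rw [div_le_iff₀ hη] at h6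
      have e : (N : ℝ) = (N : ℝ) ^ (7 / 8 : ℝ) * (N : ℝ) ^ (1 / 8 : ℝ) := by
        rw [← Real.rpow_add hNpos]; norm_num
      have h9 : (0 : ℝ) < (N : ℝ) ^ (7 / 8 : ℝ) := by positivity
      calc (N : ℝ) ^ (7 / 8 : ℝ) = (N : ℝ) ^ (7 / 8 : ℝ) * 2 / 2 := by ring
        _ ≤ (N : ℝ) ^ (7 / 8 : ℝ) * ((N : ℝ) ^ (1 / 8 : ℝ) * η) / 2 := by
            have := mul_le_mul_of_nonneg_left h6 h9.le
            linarith
        _ = η / 2 * ((N : ℝ) ^ (7 / 8 : ℝ) * (N : ℝ) ^ (1 / 8 : ℝ)) := by ring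
        _ = η / 2 * N := by rw [← e]
    have h6 : min η (η / 2) * (N : ℝ) ≤ η / 2 * N := mul_le_mul_of_nonneg_right (min_le_right _ _) hNpos.le
    linarith
  · refine Pool.Agent.H499R2.CO.HD_congr (Pool.Agent.V11201.SH.Exc.near_dens (κ := 1 / 2) (by norm_num) hg hη)
      (Pool.Agent.H499R2.HL.HD_large 0) (fun n hn1 hn => ⟨fun _ H hH1 hH2 => ?_, fun _ => Nat.zero_le n⟩)
    have hn1' : (1 : ℝ) ≤ n := by exact_mod_cast hn1
    exact solid_of hε hn1 (Real.rpow_le_rpow_of_exponent_le hn1' (by linarith)) (hn H hH1 hH2)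

end Pool.Agent.Results.MP_0deaf3_nt.SolidExceptions
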